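import Pool.Agent.H77.KG.Targets

/-!
Board kgr_modules, rows ORB, FCO, CCE (page H77_KGR.md).
-/

set_option autoImplicit false

open Set Pool.Agent.H77.BC Pool.Agent.H77.BD Pool.Agent.H77.BCP Pool.Agent.H77.KG

namespace Pool.Agent.H87.KG

theorem pf_ORB : T_ORB := by
  intro M U G S _ _ _ _ _ _ _ H s hH
  have h1 : U.D ((H ⊓ MulAction.stabilizer G s : Subgroup G) : Set G) :=
    D_inter hH (D_stab (U := U) (G := G) s)
  have h2 := a_GRC U H (H ⊓ MulAction.stabilizer G s) (fun g => g • s) hH h1 inf_le_left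
    (DFn_act DFn_id (DFn_const _)) (by
      intro a ha b hb
      rw [Subgroup.mem_inf, MulAction.mem_stabilizer_iff, mul_smul, inv_smul_eq_iff]
      constructor
      · intro h
        exact ⟨H.mul_mem (H.inv_mem ha) hb, h.symm⟩
      · rintro ⟨-, h⟩
        exact h.symm)
  have h3 : {x : S | ∃ g ∈ H, x = g • s} = (fun g : G => g • s) '' (H : Set G) := by
    ext x
    constructor
    · rintro ⟨g, hg, rfl⟩
      exact ⟨g, hg, rfl⟩
    · rintro ⟨g, hg, rfl⟩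
      exact ⟨g, hg, rfl⟩
  rw [h2, h3]

theorem pf_FCO (hORB : T_ORB) : T_FCO := by
  intro M U G S _ _ _ _ _ _ _ H s hC hf g hg
  have h := hORB U H s hC.1
  have hd : U.D {x : S | ∃ g ∈ H, x = g • s} := D_finite hf
  have h0 : U.R {x : S | ∃ g ∈ H, x = g • s} = 0 :=
    ((a_RKA U).fin hd ⟨s, 1, H.one_mem, (one_smul G s).symm⟩).2 hf
  rw [h0, zero_add] at h
  have h1 : U.D ((H ⊓ MulAction.stabilizer G s : Subgroup G) : Set G) :=
    D_inter hC.1 (D_stab (U := U) (G := G) s)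
  have h2 := hC.2 (H ⊓ MulAction.stabilizer G s) inf_le_left h1 h.le
  have h3 : g ∈ H ⊓ MulAction.stabilizer G s := by
    rw [h2]
    exact hg
  exact MulAction.mem_stabilizer_iff.1 h3.2

theorem pf_CCE : T_CCE := by
  intro M U Γ _ _ _ H hH
  set F : Set (Subgroup Γ) := {L | L ≤ H ∧ U.D (L : Set Γ) ∧ U.R (H : Set Γ) ≤ U.R (L : Set Γ)}
    with hF
  have hcc : cc U H = sInf F := rfl
  have hinf : ∀ A ∈ F, ∀ B ∈ F, A ⊓ B ∈ F := by
    rintro A ⟨hA1, hA2, hA3⟩ B ⟨hB1, hB2, hB3⟩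
    have hd : U.D ((A ⊓ B : Subgroup Γ) : Set Γ) := D_inter hA2 hB2
    have hle : A ⊓ B ≤ H := inf_le_left.trans hA1
    refine ⟨hle, hd, (a_GRA U H (A ⊓ B) hH hd hle).1 ?_⟩
    exact Subgroup.relIndex_inf_ne_zero ((a_GRA U H A hH hA2 hA1).2 hA3)
      ((a_GRA U H B hH hB2 hB1).2 hB3)
  have hHF : H ∈ F := ⟨le_rfl, hH, le_rfl⟩
  have hJ : ∀ J : Finset F, H ⊓ ⨅ j ∈ J, (j : Subgroup Γ) ∈ F := by
    classical
    intro J
    induction J using Finset.induction_on with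
    | empty =>
      simpa using hHF
    | insert j J hj ih =>
      rw [Finset.iInf_insert]
      have : H ⊓ ((j : Subgroup Γ) ⊓ ⨅ x ∈ J, (x : Subgroup Γ)) =
          (j : Subgroup Γ) ⊓ (H ⊓ ⨅ x ∈ J, (x : Subgroup Γ)) := by
        rw [inf_left_comm]
      rw [this]
      exact hinf _ j.2 _ ih
  obtain ⟨J, hJ2⟩ := a_GRD U (fun j : F => (j : Subgroup Γ)) (fun j => j.2.2.1)
  set K : Subgroup Γ := H ⊓ ⨅ j ∈ J, (j : Subgroup Γ) with hKdef
  have hK : K ∈ F := hJ J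
  have hKcc : cc U H = K := by
    rw [hcc]
    refine le_antisymm (sInf_le hK) (le_sInf fun L hL => ?_)
    exact inf_le_right.trans (hJ2 ⟨L, hL⟩)
  have hmin : ∀ L : Subgroup Γ, L ≤ H → U.D (L : Set Γ) → U.R (H : Set Γ) ≤ U.R (L : Set Γ) →
      cc U H ≤ L := fun L h1 h2 h3 => sInf_le ⟨h1, h2, h3⟩
  have hccF : cc U H ∈ F := by rw [hKcc]; exact hK
  have hR : U.R (cc U H : Set Γ) = U.R (H : Set Γ) :=
    le_antisymm ((a_RKA U).mono hccF.2.1 hH ⟨1, (cc U H).one_mem⟩ hccF.1) hccF.2.2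
  refine ⟨⟨hccF.2.1, fun L hL hd hr => le_antisymm hL (hmin L (hL.trans hccF.1) hd
    (hccF.2.2.trans hr))⟩, hccF.1, hR, (a_GRA U H (cc U H) hH hccF.2.1 hccF.1).2 hccF.2.2,
    hmin, ?_⟩
  intro g hg x
  have h1 : cc U H ≤ cj g (cc U H) := by
    obtain ⟨c1, c2, -⟩ := a_CNJ U g (cc U H) hccF.2.1
    refine hmin _ ?_ c1 (by rw [c2]; exact hccF.2.2)
    intro y hy
    exact (hg y).2 (hccF.1 hy)
  have h2 : cc U H ≤ cj g⁻¹ (cc U H) := by
    obtain ⟨c1, c2, -⟩ := a_CNJ U g⁻¹ (cc U H) hccF.2.1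
    refine hmin _ ?_ c1 (by rw [c2]; exact hccF.2.2)
    intro y hy
    have h3 : g⁻¹ * y * g⁻¹⁻¹ ∈ H := hccF.1 hy
    have h4 := (hg _).1 h3
    have h5 : g * (g⁻¹ * y * g⁻¹⁻¹) * g⁻¹ = y := by group
    rwa [h5] at h4
  constructor
  · intro hx
    exact h1 hx
  · intro hx
    have h3 : g⁻¹ * (g * x * g⁻¹) * g⁻¹⁻¹ ∈ cc U H := h2 hx
    have h5 : g⁻¹ * (g * x * g⁻¹) * g⁻¹⁻¹ = x := by group
    rwa [h5] at h3

end Pool.Agent.H87.KG
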