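import Pool.Agent.H77.KG.Targets

/-!
Board kgr_modules, row SBM (page H77_KGR.md).
-/

set_option autoImplicit false

open Set Pool.Agent.H77.BC Pool.Agent.H77.BD Pool.Agent.H77.BCP Pool.Agent.H77.KG

namespace Pool.Agent.H87.KG

theorem pf_SBM : T_SBM := by
  intro M U G V _ _ _ _ _ _ _ _ H W h hH hW
  have iDG : DG U H := dgSub H hH
  have fW : Ful U {x : V // x ∈ W} := ful_sub hW
  have v0 : DFn U (fun x : {x : V // x ∈ W} => x.1) := DFn_sval' hW
  have v1 : DFn U (fun x : {x : G // x ∈ H} => x.1) := DFn_sval' hH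
  have iDAb : DAb U W := by
    have h1 : DFn U (fun z : {x : V // x ∈ W} × {x : V // x ∈ W} => z.1.1) :=
      DFn_comp (g := fun x : {x : V // x ∈ W} => x.1) v0 DFn_fst
    have h2 : DFn U (fun z : {x : V // x ∈ W} × {x : V // x ∈ W} => z.2.1) :=
      DFn_comp (g := fun x : {x : V // x ∈ W} => x.1) v0 DFn_snd
    have h3 : DFn U (fun z : {x : V // x ∈ W} × {x : V // x ∈ W} => z.1.1 + z.2.1) :=
      DFn_aadd h1 h2
    exact ⟨DFn_smk (p := fun x => x ∈ W) hW h3⟩
  -- subgroups
  have cm : ∀ L : Subgroup H, ((L.map H.subtype : Subgroup G) : Set G) =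
      Subtype.val '' (L : Set H) := fun L => rfl
  have dL : ∀ L : Subgroup H, U.D (L : Set H) ↔ U.D ((L.map H.subtype : Subgroup G) : Set G) :=
    fun L => by rw [cm]; exact D_sub _
  have rL : ∀ L : Subgroup H, U.R (L : Set H) = U.R ((L.map H.subtype : Subgroup G) : Set G) :=
    fun L => by rw [cm]; exact R_sub _
  have hsub : ∀ T : Subgroup G, T ≤ H → Conn U T → Conn U (T.subgroupOf H) := by
    intro T hT hC
    have e : (T.subgroupOf H).map H.subtype = T := Subgroup.map_subgroupOf_eq_of_le hT
    refine ⟨(dL _).2 (by rw [e]; exact hC.1), fun L hL hd hr => ?_⟩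
    have hle : L.map H.subtype ≤ T := by
      rw [← e]
      exact Subgroup.map_mono hL
    have e2 : L.map H.subtype = T := by
      refine hC.2 _ hle ((dL _).1 hd) ?_
      have := hr
      rw [rL, rL, e] at this
      exact this
    rw [← e2]
    ext x
    rw [Subgroup.mem_subgroupOf, Subgroup.mem_map]
    constructor
    · intro hx
      exact ⟨x, hx, rfl⟩
    · rintro ⟨y, hy, hyx⟩
      have : y = x := Subtype.ext hyx
      rwa [← this]
  refine ⟨iDG, iDAb, ?_, ?_, hsub, ?_⟩
  · letI := subAct H W h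
    have h1 : DFn U (fun z : {x : G // x ∈ H} × {x : V // x ∈ W} => z.1.1) :=
      DFn_comp (g := fun x : {x : G // x ∈ H} => x.1) v1 DFn_fst
    have h2 : DFn U (fun z : {x : G // x ∈ H} × {x : V // x ∈ W} => z.2.1) :=
      DFn_comp (g := fun x : {x : V // x ∈ W} => x.1) v0 DFn_snd
    have h3 : DFn U (fun z : {x : G // x ∈ H} × {x : V // x ∈ W} => z.1.1 • z.2.1) :=
      DFn_act h1 h2
    exact ⟨DFn_smk (p := fun x => x ∈ W) hW h3⟩
  · intro hC
    have := hsub H le_rfl hC
    rwa [Subgroup.subgroupOf_self] at this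
  · rintro ⟨m1, m2, m3, m4⟩
    letI := subAct H W h
    refine ⟨?_, ?_, ?_, ?_⟩
    · exact iDAb.full
    · intro t _ v _
      exact AddSubgroup.mem_top _
    · have : Infinite W := m3.to_subtype
      have h5 : (Set.univ : Set W).Infinite := Set.infinite_univ
      exact h5
    · intro A _ hA hIv hne
      have cmA : ((A.map W.subtype : AddSubgroup V) : Set V) = Subtype.val '' (A : Set W) := rfl
      have hf : ((A.map W.subtype : AddSubgroup V) : Set V).Finite := by
        refine m4 _ ?_ ?_ ?_ ?_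
        · rintro x ⟨a, -, rfl⟩
          exact a.2
        · rw [cmA]
          exact (D_sub _).1 hA
        · rintro t ht v ⟨a, ha, rfl⟩
          exact ⟨(⟨t, ht⟩ : H) • a, hIv ⟨t, ht⟩ (Subgroup.mem_top _) a ha, rfl⟩
        · intro he
          refine hne (eq_top_iff.2 fun w _ => ?_)
          have hw : w.1 ∈ A.map W.subtype := by
            rw [he]
            exact w.2
          obtain ⟨a, ha, haw⟩ := hw
          have : a = w := Subtype.ext haw
          rwa [← this]
      rw [cmA] at hf
      exact Set.Finite.of_finite_image hf (fun x _ y _ hxy => Subtype.ext hxy)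

end Pool.Agent.H87.KG
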